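import Pool.Agent.V11318.RDg
import Pool.Agent.V11318.RDf
import Pool.Agent.Results.MP_321647_nt.MostTinyPrimesGenerate

/-!
# If the fundamental unit of a typical real quadratic field is small, few of its tiny primes are principal

For every `a > 2` and `c > 0`, and for 100% of the squarefree `d` (also for 100% of the primes), the quadratic field
`K` of the square root of `d` has the following property for a suitable `y` with
`(log d)^a / 8 ≤ y ≤ (log d)^a / 2`: the tiny primes (the primes of `(y, 2y]` that are norms of ideals) are at least one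
fifth of the primes of `(y, 2y]`, and if the regulator of `K` is at most `d^(1/2 - c)`, then at most the proportion
`12 / (log d)^(c/2)` of the tiny primes are such that all ideals with this norm are principal.
-/

set_option autoImplicit false

namespace Pool.Agent.Results.MP_070445_nt.SmallUnitsFewPrincipal

open Filter Finset NumberField
open scoped Classical
open Pool.Agent.V11318.RB Pool.Agent.Results.MP_321647_nt.ProductsInEveryClass
open Pool.Agent.Results.MP_321647_nt

/-- The property of the integer `d` in the theorem; `tiny K y` is the set of the primes of `(y, 2y]` that are norms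
of ideals, `outside K y ⊥` the set of those that are norms of non-principal ideals. -/
def FewPrincipal (a c : ℝ) (d : ℕ) : Prop :=
  ∀ (K : Type) [Field K] [NumberField K], Module.finrank ℚ K = 2 →
    (∃ x : K, x ^ 2 = (d : K)) → ∃ y : ℕ, (Real.log d) ^ a ≤ 8 * (y : ℝ) ∧
      2 * (y : ℝ) ≤ (Real.log d) ^ a ∧
      ((Finset.Ioc y (2 * y)).filter Nat.Prime).card ≤ 5 * (tiny K y).card ∧
      (NumberField.Units.regulator K ≤ (d : ℝ) ^ (1 / 2 - c) →
        ((tiny K y \ outside K y ⊥).card : ℝ) ≤ 12 / (Real.log d) ^ (c / 2) * (tiny K y).card)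

lemma log_small (c : ℝ) (hc : 0 < c) : ∃ X4 : ℕ, ∀ X : ℕ, X4 ≤ X → ∀ d : ℝ, (X : ℝ) / 4 ≤ d →
    112 * Real.log X ≤ d ^ (c / 2) := by
  have hc2 : 0 < c / 2 := by positivity
  have h4 : (0 : ℝ) < 4 ^ (c / 2) := Real.rpow_pos_of_pos (by norm_num) _
  have hδ : 0 < 1 / (112 * (4 : ℝ) ^ (c / 2)) := by positivity
  have h1 := (isLittleO_log_rpow_atTop hc2).def hδ
  obtain ⟨X4, hX4⟩ := Filter.eventually_atTop.1 (tendsto_natCast_atTop_atTop.eventually h1)
  refine ⟨max X4 1, fun X hX d hd => ?_⟩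
  have h2 := hX4 X ((le_max_left _ _).trans hX)
  have hX1 : (1 : ℝ) ≤ X := by exact_mod_cast (le_max_right _ _).trans hX
  rw [Real.norm_of_nonneg (Real.log_nonneg hX1),
    Real.norm_of_nonneg (Real.rpow_nonneg (by linarith) _)] at h2
  have h3 : (X : ℝ) ^ (c / 2) ≤ 4 ^ (c / 2) * d ^ (c / 2) := by
    rw [← Real.mul_rpow (by norm_num) (by linarith)]
    exact Real.rpow_le_rpow (by linarith) (by linarith) hc2.le
  have h5 : Real.log X ≤ 1 / (112 * (4 : ℝ) ^ (c / 2)) * (4 ^ (c / 2) * d ^ (c / 2)) :=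
    h2.trans (mul_le_mul_of_nonneg_left h3 hδ.le)
  have h6 : 1 / (112 * (4 : ℝ) ^ (c / 2)) * (4 ^ (c / 2) * d ^ (c / 2)) = d ^ (c / 2) / 112 := by
    field_simp
  rw [h6] at h5
  linarith

/-- small regulator, large class number -/
lemma class_large (c : ℝ) (X d R h L : ℝ) (hX : 1 < X) (hd1 : 1 < d) (hd2 : d ≤ 2 * X)
    (hlog : 112 * Real.log X ≤ d ^ (c / 2)) (hh : 0 ≤ h)
    (h1 : √X ≤ 8 * Real.log X * L) (h2 : L ≤ 7 * (R * h)) (hR : R ≤ d ^ (1 / 2 - c)) :
    d ^ (c / 2) ≤ h := by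
  have hd0 : 0 < d := by linarith
  have hl : 0 < Real.log X := Real.log_pos hX
  have hsd : √d ≤ 2 * √X := by
    rw [Real.sqrt_le_left (by positivity), mul_pow, Real.sq_sqrt (by linarith)]
    linarith
  have h3 : √X ≤ 56 * Real.log X * (d ^ (1 / 2 - c) * h) := by
    calc √X ≤ 8 * Real.log X * L := h1
      _ ≤ 8 * Real.log X * (7 * (R * h)) := mul_le_mul_of_nonneg_left h2 (by positivity)
      _ ≤ 8 * Real.log X * (7 * (d ^ (1 / 2 - c) * h)) := by
          apply mul_le_mul_of_nonneg_left _ (by positivity)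
          apply mul_le_mul_of_nonneg_left _ (by norm_num)
          exact mul_le_mul_of_nonneg_right hR hh
      _ = _ := by ring
  have h4 : √d ≤ 112 * Real.log X * (d ^ (1 / 2 - c) * h) := by linarith
  have h5 : √d ≤ d ^ (c / 2) * (d ^ (1 / 2 - c) * h) := by
    refine h4.trans (mul_le_mul_of_nonneg_right hlog ?_)
    exact mul_nonneg (Real.rpow_nonneg hd0.le _) hh
  have h6 : d ^ (c / 2) * (d ^ (1 / 2 - c) * h) = d ^ (1 / 2 - c / 2) * h := by
    rw [← mul_assoc, ← Real.rpow_add hd0]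
    congr 2
    ring
  have h7 : √d = d ^ (1 / 2 - c / 2) * d ^ (c / 2) := by
    rw [← Real.rpow_add hd0, Real.sqrt_eq_rpow]
    congr 1
    ring
  rw [h6, h7] at h5
  exact le_of_mul_le_mul_left h5 (Real.rpow_pos_of_pos hd0 _)

open Pool.Agent.H38R2.CG Pool.Agent.H38R2.CG2 Pool.Agent.H38R2.CG3 in
/-- the exceptional d have exceptional discriminants -/
theorem excBd_few (a c : ℝ) (ha : 2 < a) (hc : 0 < c) :
    Pool.Agent.V11318.RD.ExcBd a ((1 / 100) ^ 2) (fun d => ¬ FewPrincipal a c d) := by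
  obtain ⟨X1, hX1⟩ := params a ha
  obtain ⟨X2, hX2⟩ := T2_NB T_NB a ha 1 one_pos
  obtain ⟨X3, hX3⟩ := MostTinyPrimesGenerate.y_ge a ha
  obtain ⟨X4, hX4⟩ := log_small c hc
  refine ⟨max X1 (max X2 (max X3 (max X4 3))), fun X hX d hd1 hds hg hXD hDX => ?_⟩
  have hXa : X1 ≤ X := (le_max_left _ _).trans hX
  have hXb : X2 ≤ X := (le_max_left _ _).trans ((le_max_right _ _).trans hX)
  have hXc : X3 ≤ X := (le_max_left _ _).trans ((le_max_right _ _).trans ((le_max_right _ _).trans hX))
  have hXd : max X4 3 ≤ X :=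
    (le_max_right _ _).trans ((le_max_right _ _).trans ((le_max_right _ _).trans hX))
  have hXe : X4 ≤ X := (le_max_left _ _).trans hXd
  have hXf : 3 ≤ X := (le_max_right _ _).trans hXd
  have hfund := FINh.isFund_Dof hd1 hds
  refine ⟨hfund, ?_⟩
  have hd4 : (X : ℝ) / 4 ≤ d := by
    have h1 : X < 4 * d := lt_of_lt_of_le hXD (FINh.Dof_le d)
    have h2 : (X : ℝ) < 4 * d := by exact_mod_cast h1
    linarith
  have hd2 : (d : ℝ) ≤ 2 * X := by
    have h1 : d ≤ 2 * X := (le_Dof d).trans hDX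
    exact_mod_cast h1
  have hd1r : (1 : ℝ) < d := by exact_mod_cast hd1
  obtain ⟨hy, hk, hy2⟩ := hX1 X hXa d hd4 hd2
  have hy8 := hX3 X hXc d hd1r hd2
  have hlog := hX4 X hXe d hd4
  obtain ⟨-, hNA, -, -, -, -, hNk, -⟩ := hX2 X hXb
  have hXr : (3 : ℝ) ≤ X := by exact_mod_cast hXf
  have hNA0 : 0 < NA a X := lt_of_lt_of_le (Real.rpow_pos_of_pos (by linarith) _) hNA
  have hk1 : 1 ≤ kA a X := by unfold kA; omega
  have hkN : kA a X ≤ (PA a X).card := by nlinarith
  by_contra hb
  apply hg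
  intro K iF iN hrank hx
  have hdisc : NumberField.discr K = ((FINh.Dof d : ℕ) : ℤ) := by
    rw [T_N0d K d hd1 hds hrank hx]
    unfold FINh.Dof
    split_ifs <;> simp
  have hb1 : ¬ Bd a ((1 / 100) ^ 2) X (FINh.Dof d) := fun h => hb (Or.inl (Or.inl h))
  have hb2 : ¬ MD (FINh.Dof d) (SA a X) (fun _ => 1) < 1 / 2 * NA a X :=
    fun h => hb (Or.inl (Or.inr h))
  have he : Equi K (yA a X) (kA a X) ((1 / 100) ^ 2) := by
    by_contra hne
    exact hb1 (bd_of_not_equi T_N0 (T_N1 (T_SPL T_N0)) Pool.Agent.Y892.UF.N3_true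
      Pool.Agent.Y892.UF.N4_true T_KF (T_N5b T_KF Pool.Agent.Y892.UF.N4_true) (T_N6 T_KF)
      a _ X (FINh.Dof d) hy2 hfund K hrank hdisc hne)
  have hT : ((PA a X).card).choose (kA a X) ≤ 2 * total K (yA a X) (kA a X) := by
    rw [not_lt] at hb2
    have h5 := MostTinyPrimesGenerate.total_MD K (FINh.Dof d) (yA a X) (kA a X) hfund hy2 hrank hdisc
    have h6 : MD (FINh.Dof d) ((PP (yA a X)).powersetCard (kA a X)) (fun _ => 1) =
        MD (FINh.Dof d) (SA a X) (fun _ => 1) := rfl
    rw [← h6, ← h5] at hb2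
    unfold NA CA at hb2
    have h7 : (((PA a X).card).choose (kA a X) : ℝ) ≤ 2 * (total K (yA a X) (kA a X) : ℝ) := by
      linarith
    exact_mod_cast h7
  obtain ⟨r1, -, -, -, r5, -⟩ := MostTinyPrimesGenerate.robust_of K hrank d (yA a X) (kA a X)
    (PA a X).card a (by linarith) hy hd1 hk1 hkN hk hT he
  refine ⟨yA a X, hy8, hy, r1, fun hreg => r5 (c / 2) (by positivity) ⊥ ?_⟩
  rw [Subgroup.index_bot]
  have h8 := Pool.Agent.V11318.RD.lone_ge a _ X (FINh.Dof d) hXf hy2 hNA0 hfund hb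
  have h9 := Pool.Agent.V11318.RD.cnf K (FINh.Dof d) hfund hrank hdisc
  have h10 : (Nat.card (ClassGroup (𝓞 K)) : ℝ) = NumberField.classNumber K := by
    rw [Nat.card_eq_fintype_card]
    rfl
  rw [h10]
  exact class_large c X d (NumberField.Units.regulator K) _ _ (by linarith) hd1r hd2 hlog
    (Nat.cast_nonneg _) h8 h9 hreg

open Pool.Agent.V11318.RD in
/-- For every `a > 2` and `c > 0`, the property `FewPrincipal a c` holds for 100% of the squarefree integers and for
100% of the primes. -/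
theorem result : ∀ a c : ℝ, 2 < a → 0 < c →
    MostTinyPrimesGenerate.AlmostAllSquarefree (FewPrincipal a c) ∧
    CandidateRadicands.AlmostAll Nat.Prime (FewPrincipal a c) := by
  intro a c ha hc
  have hE := excBd_few a c ha hc
  have h0 : (0 : ℝ) < (1 / 100) ^ 2 := by norm_num
  refine ⟨?_, ?_⟩
  · have h := all_lim a ha _ h0 _ hE
    unfold MostTinyPrimesGenerate.AlmostAllSquarefree
    convert h
  · apply MostTinyPrimesGenerate.almost
    have h := prime_lim5 a ha _ h0 _ hE
    convert h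

end Pool.Agent.Results.MP_070445_nt.SmallUnitsFewPrincipal
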